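import Pool.Agent.J4H34.DN.Stm

/-! Project DN, piece F. -/

set_option autoImplicit false

namespace Pool.Agent.J4H52.DN

open Polynomial Complex Pool.Agent.J4H34.DN

/-- Gauss-Lucas for the strip `|Im| ≤ 1`. -/
theorem strip_derivative {p : ℂ[X]} (h : ∀ w ∈ p.roots, |w.im| ≤ 1) (hd : derivative p ≠ 0) :
    ∀ w ∈ (derivative p).roots, |w.im| ≤ 1 := by
  intro w hw
  have hp : p ≠ 0 := by
    rintro rfl
    simp at hd
  have hdeg : 0 < p.degree := by
    by_contra hcon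
    have : p = C (p.coeff 0) := eq_C_of_degree_le_zero (not_lt.1 hcon)
    rw [this] at hd
    simp at hd
  have h1 : w ∈ (derivative p).rootSet ℂ := by
    rw [mem_rootSet]
    refine ⟨hd, ?_⟩
    simpa using (mem_roots hd).1 hw
  have h2 := rootSet_derivative_subset_convexHull_rootSet hdeg h1
  have hconv : Convex ℝ {z : ℂ | |z.im| ≤ 1} := by
    have : {z : ℂ | |z.im| ≤ 1} = {z : ℂ | -1 ≤ z.im} ∩ {z : ℂ | z.im ≤ 1} := by
      ext z; simp [abs_le]
    rw [this]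
    exact (convex_halfSpace_im_ge _).inter (convex_halfSpace_im_le _)
  have h3 : p.rootSet ℂ ⊆ {z : ℂ | |z.im| ≤ 1} := by
    intro z hz
    rw [mem_rootSet] at hz
    refine h z ((mem_roots hp).2 ?_)
    simpa using hz.2
  exact convexHull_min h3 hconv h2

theorem strip_iterate {p : ℂ[X]} (h : ∀ w ∈ p.roots, |w.im| ≤ 1) (n : ℕ)
    (hd : derivative^[n] p ≠ 0) : ∀ w ∈ (derivative^[n] p).roots, |w.im| ≤ 1 := by
  induction n with
  | zero => simpa using h
  | succ n ih =>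
    rw [Function.iterate_succ_apply'] at hd ⊢
    have h0 : derivative^[n] p ≠ 0 := by
      intro h0
      rw [h0] at hd
      simp at hd
    exact strip_derivative (ih h0) hd

/-- (F) the inequality for polynomials -/
theorem t_F : S_A → S_D → S_E → S_F := by
  intro hA hD hE p y η R Λ x₀ n hp hroots hy hη hyη hR hΛ hsum hn
  have hy1 : y ≤ 1 := by linarith
  obtain ⟨hne, hDle⟩ := hD p y R Λ x₀ n hp hroots hy hy1 hR hΛ hsum hn
  set P := derivative^[n] p with hP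
  have hP0 : P ≠ 0 := by
    intro h0
    rw [h0] at hne
    simp at hne
  have hPr : ∀ w ∈ P.roots, |w.im| ≤ 1 := strip_iterate hroots n hP0
  have hEle := hE P y η R x₀ hP0 hPr hy hη hyη hR
  have hAle := hA p y n ⟨x₀, R + 1⟩ (by show y ≤ R + 1; linarith)
  have hpos : 0 < ‖P.eval ⟨x₀, R + 1⟩‖ := norm_pos_iff.2 hne
  set N : ℝ := ((P.roots.filter (fun w => |w.re - x₀| ≤ R ∧ y + η ≤ w.im)).card : ℝ) with hN
  set S : ℝ := (p.roots.map (fun w => max (w.im - y) 0 * (R + 1 - y) / ‖(⟨x₀, R + 1⟩ : ℂ) - w‖ ^ 2)).sum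
    with hS
  have h1 : Real.exp (η / (10 * R) * N) * ‖P.eval ⟨x₀, R + 1⟩‖ ≤
      Real.exp (5 * S) * ‖P.eval ⟨x₀, R + 1⟩‖ := hEle.trans (hAle.trans hDle)
  have h2 : Real.exp (η / (10 * R) * N) ≤ Real.exp (5 * S) := le_of_mul_le_mul_right h1 hpos
  have h3 : η / (10 * R) * N ≤ 5 * S := Real.exp_le_exp.1 h2
  have hR0 : 0 < R := by linarith
  have h4 : N * η ≤ 50 * R * S := by
    have : η / (10 * R) * N = N * η / (10 * R) := by ring
    rw [this, div_le_iff₀ (by positivity)] at h3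
    linarith
  have h5 : S ≤ 3 * (p.roots.map (fun w => max (w.im - y) 0 * R / (R ^ 2 + (x₀ - w.re) ^ 2))).sum := by
    rw [hS, ← Multiset.sum_map_mul_left]
    refine Multiset.sum_map_le_sum_map _ _ ?_
    intro w hw
    have hw1 := (abs_le.1 (hroots w hw)).2
    have hnorm : ‖(⟨x₀, R + 1⟩ : ℂ) - w‖ ^ 2 = (x₀ - w.re) ^ 2 + (R + 1 - w.im) ^ 2 := by
      rw [Complex.sq_norm, Complex.normSq_apply]
      simp only [Complex.sub_re, Complex.sub_im]
      ring
    have hden : R ^ 2 + (x₀ - w.re) ^ 2 ≤ ‖(⟨x₀, R + 1⟩ : ℂ) - w‖ ^ 2 := by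
      rw [hnorm]; nlinarith
    have hden0 : 0 < R ^ 2 + (x₀ - w.re) ^ 2 := by positivity
    have hm : 0 ≤ max (w.im - y) 0 := le_max_right _ _
    calc max (w.im - y) 0 * (R + 1 - y) / ‖(⟨x₀, R + 1⟩ : ℂ) - w‖ ^ 2
        ≤ max (w.im - y) 0 * (3 * R) / (R ^ 2 + (x₀ - w.re) ^ 2) := by
          refine div_le_div₀ (by positivity) ?_ hden0 hden
          exact mul_le_mul_of_nonneg_left (by linarith) hm
      _ = 3 * (max (w.im - y) 0 * R / (R ^ 2 + (x₀ - w.re) ^ 2)) := by ring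
  show N * η ≤ _
  have : 50 * R * S ≤ 50 * R * (3 * (p.roots.map (fun w => max (w.im - y) 0 * R / (R ^ 2 + (x₀ - w.re) ^ 2))).sum) :=
    mul_le_mul_of_nonneg_left h5 (by positivity)
  linarith

end Pool.Agent.J4H52.DN
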