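import Pool.Agent.J4H34.DN.Stm4
import Pool.Agent.J4H52.DN.K3

/-! Project DN, piece K4: the choice of the parameters. -/

set_option autoImplicit false

namespace Pool.Agent.J4H52.DN

open Polynomial Complex Pool.Agent.J4H34.DN

/-- (K4) the density theorem for the derivatives -/
theorem t_K4 : S_K4 := by
  rintro hG ⟨p, hp⟩ ⟨C₁, T₁, hC₁, hT₁, hW⟩ ⟨c₁, T₂, hc₁, hT₂, hJ⟩ ⟨hdiff, hstrip, -⟩
  refine ⟨c₁ / 16, max (max T₁ T₂) (max (max 3 (2 / c₁)) (300 * Real.exp 3 * C₁)), by positivity, ?_⟩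
  intro T y n hT hy0 hy hn S hS
  have hTT₁ : T₁ ≤ T := (le_max_left _ _).trans ((le_max_left _ _).trans hT)
  have hTT₂ : T₂ ≤ T := (le_max_right _ _).trans ((le_max_left _ _).trans hT)
  have hT3 : 3 ≤ T := (le_max_left _ _).trans ((le_max_left _ _).trans ((le_max_right _ _).trans hT))
  have hTc : 2 / c₁ ≤ T :=
    (le_max_right _ _).trans ((le_max_left _ _).trans ((le_max_right _ _).trans hT))
  have hT0 : 0 < T := by linarith
  have hlog : 1 ≤ Real.log T := by
    rw [Real.le_log_iff_exp_le hT0]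
    have := Real.exp_one_lt_d9
    linarith
  have hlog0 : 0 < Real.log T := by linarith
  have hil : 1 / Real.log T ≤ 1 := by
    rw [div_le_one hlog0]; exact hlog
  have hil0 : 0 < 1 / Real.log T := by positivity
  have hil2 : 1 / (2 * Real.log T) = (1 / Real.log T) / 2 := by
    field_simp
  have hx : |3 * T / 2| ≤ 2 * T := by
    rw [abs_of_pos (by positivity)]; linarith
  obtain ⟨S₀, hS₀, hsum⟩ := hJ T hTT₂ (3 * T / 2) hx
  have hB := hW T hTT₁ (y - 1 / Real.log T) (by linarith) (by linarith) (3 * T / 2) hx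
  have hinv : 1 / T ≤ c₁ / 2 := by
    rw [div_le_div_iff₀ hT0 (by norm_num)]
    rw [div_le_iff₀ hc₁] at hTc
    linarith
  have hmain := hG Xf p (y - 1 / Real.log T) (1 / (2 * Real.log T)) T (c₁ / 2 * Real.log T)
    (3 * T / 2) (C₁ * T ^ (ex (y - 1 / Real.log T) - 1) / (1 / 2 - (y - 1 / Real.log T))) n hdiff hp hstrip (by linarith) (by positivity)
    (by rw [hil2]; linarith) (by linarith) (by positivity)
    ⟨S₀, hS₀, by nlinarith [hsum, hinv, hlog, hc₁]⟩ (by nlinarith [hn]) hB S ?_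
  · -- conclusion
    set N : ℝ := ∑ w ∈ S, (analyticOrderNatAt (iteratedDeriv n Xf) w : ℝ) with hN
    have h1 : T * T ^ (ex (y - 1 / Real.log T) - 1) = T ^ (ex (y - 1 / Real.log T)) := by
      rw [Real.rpow_sub_one hT0.ne']
      field_simp
    have hd : 0 < 1 / 2 - y := by linarith
    have hd' : 1 / 2 - y ≤ 1 / 2 - (y - 1 / Real.log T) := by linarith
    have h2 : N ≤ 300 * C₁ * T ^ (ex (y - 1 / Real.log T)) * Real.log T / (1 / 2 - y) := by
      have hq : C₁ * T ^ (ex (y - 1 / Real.log T) - 1) / (1 / 2 - (y - 1 / Real.log T)) ≤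
          C₁ * T ^ (ex (y - 1 / Real.log T) - 1) / (1 / 2 - y) :=
        div_le_div_of_nonneg_left (by positivity) hd hd'
      have h3 : 150 * T * (C₁ * T ^ (ex (y - 1 / Real.log T) - 1) / (1 / 2 - y)) =
          150 * C₁ * T ^ (ex (y - 1 / Real.log T)) / (1 / 2 - y) := by
        rw [← h1]; ring
      have hmain' := hmain.trans (mul_le_mul_of_nonneg_left hq (by positivity : 0 ≤ 150 * T))
      rw [h3] at hmain'
      have h4 : N * (1 / (2 * Real.log T)) = N / (2 * Real.log T) := by ring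
      rw [h4, div_le_iff₀ (by positivity)] at hmain'
      calc N ≤ 150 * C₁ * T ^ (ex (y - 1 / Real.log T)) / (1 / 2 - y) * (2 * Real.log T) := hmain'
        _ = _ := by ring
    have h5 : T ^ (ex (y - 1 / Real.log T)) ≤ Real.exp 3 * T ^ ex y := by
      have h6 : ex (y - 1 / Real.log T) ≤ ex y + 3 * (1 / Real.log T) := by
        have := ex_le (y := y) (y' := y - 1 / Real.log T) (by linarith) hy.le
        linarith
      calc T ^ (ex (y - 1 / Real.log T)) ≤ T ^ (ex y + 3 * (1 / Real.log T)) :=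
            Real.rpow_le_rpow_of_exponent_le (by linarith) h6
        _ = T ^ ex y * T ^ (3 * (1 / Real.log T)) := Real.rpow_add hT0 _ _
        _ = Real.exp 3 * T ^ ex y := by
            rw [Real.rpow_def_of_pos hT0 (3 * (1 / Real.log T))]
            have : Real.log T * (3 * (1 / Real.log T)) = 3 := by field_simp
            rw [this]; ring
    have hT5 : 300 * Real.exp 3 * C₁ ≤
        max (max T₁ T₂) (max (max 3 (2 / c₁)) (300 * Real.exp 3 * C₁)) :=
      (le_max_right _ _).trans (le_max_right _ _)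
    have hp0 : 0 ≤ T ^ ex y := Real.rpow_nonneg hT0.le _
    calc N ≤ 300 * C₁ * T ^ (ex (y - 1 / Real.log T)) * Real.log T / (1 / 2 - y) := h2
      _ ≤ 300 * C₁ * (Real.exp 3 * T ^ ex y) * Real.log T / (1 / 2 - y) := by gcongr
      _ = (300 * Real.exp 3 * C₁) * T ^ ex y * Real.log T / (1 / 2 - y) := by ring
      _ ≤ _ := by gcongr
  · intro w hw
    obtain ⟨h1, h2, h3, h4⟩ := hS w hw
    refine ⟨h1, ?_, ?_⟩
    · rw [abs_lt]; constructor <;> linarith
    · rw [hil2]; linarith

end Pool.Agent.J4H52.DN
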